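import Pool.Agent.U233.DT.Index

/-!
# The semidefinite subspaces of `H (p, q)`
-/

open scoped ComplexConjugate
open Module

namespace Pool.Agent.U233.DT

open Pool.Agent.W539.DI Pool.Agent.R929.DH

variable {n : ℕ} {X : KRing n} {L : X.R}

/-- The bounds for the ranks. -/
noncomputable def pm (X : KRing n) (L : X.R) : Bool → ℕ → ℕ → ℤ → ℤ → ℤ
  | _, 0, _, _, _ => 0
  | e, f + 1, κ, p, q => pm X L (!e) f (κ + 2) (p - 1) (q - 1) + cc X L κ e (f + 1) p q +
      rk X L (κ + 1) (p - 1) (q - 1) - rk X L (κ + 2) (p - 1) (q - 1)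

theorem rk_neg (j : ℕ) {p : ℤ} (q : ℤ) (hp : p < 0) : rk X L j p q = 0 := by
  have h1 := rk_nl (X := X) (L := L) j p q
  rw [X.h_neg (Or.inl hp)] at h1
  omega

theorem cc_sum (κ : ℕ) : ∀ (f : ℕ) (p q : ℤ), p < f →
    cc X L κ true f p q + cc X L κ false f p q = bt X L κ p q := by
  intro f
  induction f with
  | zero =>
    intro p q hp
    push_cast at hp
    unfold bt
    rw [rk_neg _ _ hp, rk_neg _ _ hp, rk_neg _ _ (by omega), rk_neg _ _ (by omega)]
    simp [cc]
  | succ f ih =>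
    intro p q hp
    have h1 := ih (p - 1) (q - 1) (by push_cast at hp; omega)
    show bt X L κ p q - bt X L κ (p - 1) (q - 1) + cc X L κ false f (p - 1) (q - 1) +
      cc X L κ true f (p - 1) (q - 1) = _
    omega

theorem pm_sum (hL : RelHR X L) : ∀ (f : ℕ) (p q : ℤ) (κ : ℕ), p + q + κ = n → p < f →
    pm X L true f κ p q + pm X L false f κ p q = rk X L κ p q := by
  intro f
  induction f with
  | zero =>
    intro p q κ _ hp
    rw [rk_neg _ _ (by simpa using hp)]
    simp [pm]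
  | succ f ih =>
    intro p q κ hn hp
    have h1 := ih (p - 1) (q - 1) (κ + 2) (by push_cast; omega) (by push_cast at hp; omega)
    have h2 := cc_sum (X := X) (L := L) κ (f + 1) p q hp
    have h3 := rk_dual hL.mem hL.real (j := κ + 1) (p := p) (q := q) (p' := p - 1) (q' := q - 1)
      (by push_cast; omega) (by push_cast; omega)
    show pm X L false f (κ + 2) (p - 1) (q - 1) + cc X L κ true (f + 1) p q +
      rk X L (κ + 1) (p - 1) (q - 1) - rk X L (κ + 2) (p - 1) (q - 1) +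
      (pm X L true f (κ + 2) (p - 1) (q - 1) + cc X L κ false (f + 1) p q +
      rk X L (κ + 1) (p - 1) (q - 1) - rk X L (κ + 2) (p - 1) (q - 1)) = _
    unfold bt at h2
    omega

/-- Ranks of sums. -/
theorem G3 (κ : ℕ) (U V : Submodule ℂ X.R) (hV : ∀ v ∈ V, L ^ (κ + 1) * v = 0) :
    finrank ℂ (U.map (ml X (L ^ (κ + 2)))) + finrank ℂ (V.map (ml X (L ^ κ))) ≤
      finrank ℂ ((U.map (ml X L) ⊔ V).map (ml X (L ^ κ))) := by
  have h1 := rank_nullity (ml X L) ((U.map (ml X L) ⊔ V).map (ml X (L ^ κ)))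
  have h2 : U.map (ml X (L ^ (κ + 2))) ≤
      ((U.map (ml X L) ⊔ V).map (ml X (L ^ κ))).map (ml X L) := by
    rintro _ ⟨u, hu, rfl⟩
    refine ⟨L ^ κ * (L * u), ⟨L * u, Submodule.mem_sup_left ⟨u, hu, rfl⟩, rfl⟩, ?_⟩
    show L * (L ^ κ * (L * u)) = L ^ (κ + 2) * u
    rw [show κ + 2 = κ + 1 + 1 from rfl, pow_succ', pow_succ]
    simp only [mul_assoc]
  have h3 : V.map (ml X (L ^ κ)) ≤
      (U.map (ml X L) ⊔ V).map (ml X (L ^ κ)) ⊓ LinearMap.ker (ml X L) := by
    refine le_inf (Submodule.map_mono le_sup_right) ?_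
    rintro _ ⟨v, hv, rfl⟩
    show L * (L ^ κ * v) = 0
    rw [← mul_assoc, ← pow_succ']
    exact hV v hv
  have h4 := Submodule.finrank_mono h2
  have h5 := Submodule.finrank_mono h3
  omega

theorem qf_zero (κ : ℕ) (p q : ℤ) (x : X.R) : sg p q * bf X L κ x x = 2 * qf X L κ 0 p q x := by
  rw [bf_self]
  unfold qf
  simp only [mul_zero, pow_zero, one_mul]
  ring

theorem exists_W (hL : RelHR X L) : ∀ (f : ℕ) (p q : ℤ) (κ : ℕ), p + q + κ = n → p < f →
    ∃ W₁ W₂ : Submodule ℂ X.R, W₁ ≤ X.H (p, q) ∧ W₂ ≤ X.H (p, q) ∧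
      (∀ x ∈ W₁, 0 ≤ sg p q * bf X L κ x x) ∧ (∀ x ∈ W₂, sg p q * bf X L κ x x ≤ 0) ∧
      pm X L true f κ p q ≤ finrank ℂ (W₁.map (ml X (L ^ κ))) ∧
      pm X L false f κ p q ≤ finrank ℂ (W₂.map (ml X (L ^ κ))) := by
  intro f
  induction f with
  | zero =>
    intro p q κ _ _
    have hH := isHerm (X := X) (w := L) (k := κ) (sg p q)
    refine ⟨⊥, ⊥, bot_le, bot_le, ?_, ?_, ?_, ?_⟩
    · intro x hx
      rw [(Submodule.mem_bot ℂ).1 hx]
      exact (hH.zero_left 0).ge
    · intro x hx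
      rw [(Submodule.mem_bot ℂ).1 hx]
      exact (hH.zero_left 0).le
    · simp [pm]
    · simp [pm]
  | succ f ih =>
    intro p q κ hn hp
    have hm := hL.mem
    have hb := hL.real
    obtain ⟨N₁, N₂, a1, a2, pos, neg, d1, d2⟩ := ih (p - 1) (q - 1) (κ + 2) (by push_cast; omega)
      (by push_cast at hp; omega)
    obtain ⟨V₁, V₂, -, b2, -, b4, posV, negV, e1, e2⟩ := exists_V hL (f + 1) p q 0 κ
      (by push_cast; omega) hp
    have hH := isHerm (X := X) (w := L) (k := κ) (sg p q)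
    have hval : ∀ u v : X.R, L ^ (κ + 1) * v = 0 → sg p q * bf X L κ (L * u + v) (L * u + v) =
        2 * qf X L κ 0 p q v - sg (p - 1) (q - 1) * bf X L (κ + 2) u u := by
      intro u v hv
      have c1 : hf X L κ (L * u) v = 0 := by
        rw [hf_succ_left hm, hf_ker_right hb hv, neg_zero]
      have c2 : hf X L κ v (L * u) = 0 := by
        rw [hf_succ_right hm hb, hf_ker_left hm hv]
      have c3 : bf X L κ (L * u + v) (L * u + v) = bf X L κ (L * u) (L * u) + bf X L κ v v := by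
        unfold bf
        simp only [hf_add_left, hf_add_right, c1, c2, add_zero, zero_add, Complex.add_re]
        ring
      rw [c3, bf_succ hm hb, mul_add, qf_zero, sg_pred]
      ring
    have hrank : ∀ (V : Submodule ℂ X.R), V ≤ KK X L κ p q →
        (finrank ℂ V : ℤ) - nl X L κ p q ≤ finrank ℂ (V.map (ml X (L ^ κ))) := by
      intro V hV
      have h1 := rank_nullity (ml X (L ^ κ)) V
      have h2 : finrank ℂ (V ⊓ LinearMap.ker (ml X (L ^ κ)) : Submodule ℂ X.R) ≤
          nl X L κ p q := Submodule.finrank_mono (inf_le_inf_right _ (hV.trans inf_le_left))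
      omega
    have t1 := finrank_TT hm (X := X) κ p q
    have t2 := rk_nl (X := X) (L := L) (κ + 1) (p - 1) (q - 1)
    have t3 := rk_nl (X := X) (L := L) (κ + 2) (p - 1) (q - 1)
    have g1 := G3 (X := X) (L := L) κ N₂ V₁ (fun v hv => (mem_KK.1 (b2 hv)).2)
    have g2 := G3 (X := X) (L := L) κ N₁ V₂ (fun v hv => (mem_KK.1 (b4 hv)).2)
    have r1 := hrank V₁ b2
    have r2 := hrank V₂ b4
    refine ⟨N₂.map (ml X L) ⊔ V₁, N₁.map (ml X L) ⊔ V₂, ?_, ?_, ?_, ?_, ?_, ?_⟩
    · refine sup_le ?_ (b2.trans inf_le_left)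
      rintro _ ⟨x, hx, rfl⟩
      exact mul_L_mem hm (a2 hx)
    · refine sup_le ?_ (b4.trans inf_le_left)
      rintro _ ⟨x, hx, rfl⟩
      exact mul_L_mem hm (a1 hx)
    · intro x hx
      obtain ⟨_, ⟨u, hu, rfl⟩, v, hv, rfl⟩ := Submodule.mem_sup.1 hx
      show 0 ≤ sg p q * bf X L κ (L * u + v) (L * u + v)
      rw [hval u v (mem_KK.1 (b2 hv)).2]
      have h1 := neg u hu
      have h2 := posV v hv
      linarith
    · intro x hx
      obtain ⟨_, ⟨u, hu, rfl⟩, v, hv, rfl⟩ := Submodule.mem_sup.1 hx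
      show sg p q * bf X L κ (L * u + v) (L * u + v) ≤ 0
      rw [hval u v (mem_KK.1 (b4 hv)).2]
      have h1 := pos u hu
      have h2 := negV v hv
      linarith
    · show pm X L false f (κ + 2) (p - 1) (q - 1) + cc X L κ true (f + 1) p q +
        rk X L (κ + 1) (p - 1) (q - 1) - rk X L (κ + 2) (p - 1) (q - 1) ≤ _
      omega
    · show pm X L true f (κ + 2) (p - 1) (q - 1) + cc X L κ false (f + 1) p q +
        rk X L (κ + 1) (p - 1) (q - 1) - rk X L (κ + 2) (p - 1) (q - 1) ≤ _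
      omega

end Pool.Agent.U233.DT
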