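import Pool.Agent.R929.DH.Main
import Pool.Agent.U233.DT.Mid

/-!
# Comparison of the ranks
-/

open scoped ComplexConjugate
open Module

namespace Pool.Agent.U233.DT

open Pool.Agent.W539.DI Pool.Agent.R929.DH

variable {n : ℕ} {X : KRing n} {L : X.R}

theorem finrank_map_F (hm : L ∈ X.H (1, 1)) (κ : ℕ) (a b : ℤ) (s : Finset ℤ) :
    finrank ℂ ((X.F a b s).map (ml X (L ^ κ))) = ∑ k ∈ s, rk X L κ (a + k) (b + k) := by
  have e : (X.F a b s).map (ml X (L ^ κ)) =
      ⨆ k ∈ s, (X.H (a + k, b + k)).map (ml X (L ^ κ)) := by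
    unfold KRing.F
    simp only [Submodule.map_iSup]
  rw [e]
  refine finrank_iSup_finset _ ?_ s
  refine (X.indep (a + κ) (b + κ)).mono fun k => ?_
  rintro _ ⟨x, hx, rfl⟩
  exact mem_H (X.pow_mul_mem hm κ hx) (by ring) (by ring)

theorem rk_sup (hm : L ∈ X.H (1, 1)) (κ : ℕ) {a b : ℤ} (N : ℕ) {W : Submodule ℂ X.R}
    (hW : W ≤ X.H (a, b)) :
    finrank ℂ ((X.F a b (sp N) ⊔ W).map (ml X (L ^ κ))) =
      ∑ k ∈ sp N, rk X L κ (a + k) (b + k) + finrank ℂ (W.map (ml X (L ^ κ))) := by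
  rw [Submodule.map_sup, ← finrank_map_F hm]
  have h1 : W.map (ml X (L ^ κ)) ≤ X.H (a + κ, b + κ) := by
    rintro _ ⟨x, hx, rfl⟩
    exact X.pow_mul_mem hm κ (hW hx)
  have h2 : (X.F a b (sp N)).map (ml X (L ^ κ)) ≤ X.F (a + κ) (b + κ) (sp N) := by
    rw [Submodule.map_le_iff_le_comap]
    refine F_ind fun k hk x hx => ?_
    exact X.mem_F hk (mem_H (X.pow_mul_mem hm κ hx) (by ring) (by ring))
  have h3 := disj_F h1 N
  have h4 := Submodule.finrank_sup_add_finrank_inf_eq ((X.F a b (sp N)).map (ml X (L ^ κ)))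
    (W.map (ml X (L ^ κ)))
  have h5 : (X.F a b (sp N)).map (ml X (L ^ κ)) ⊓ W.map (ml X (L ^ κ)) = ⊥ :=
    eq_bot_iff.2 ((inf_le_inf_right _ h2).trans h3.le)
  rw [h5, finrank_bot, add_zero] at h4
  exact h4

/-- A finite set of integers which contains all relevant degrees. -/
def bd (n : ℕ) (a b : ℤ) : ℕ := n + a.natAbs + b.natAbs + 1

theorem iSup_eq_F (X : KRing n) (p q : ℤ) (s : Finset ℤ)
    (hs : ∀ k, k ∉ s → p + k < 0 ∨ q + k < 0 ∨ (n : ℤ) < p + k ∨ (n : ℤ) < q + k) :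
    (⨆ k : ℤ, X.H (p + k, q + k)) = X.F p q s := by
  apply le_antisymm
  · refine iSup_le fun k => ?_
    by_cases hk : k ∈ s
    · exact le_iSup₂ (f := fun k (_ : k ∈ s) => X.H (p + k, q + k)) k hk
    · have : X.H (p + k, q + k) = ⊥ := by
        have hk' := hs k hk
        by_cases h1 : p + k < 0 ∨ q + k < 0
        · exact X.van _ _ h1
        · exact X.van_top (by omega)
      rw [this]
      exact bot_le
  · exact iSup₂_le fun k _ => le_iSup (fun k : ℤ => X.H (p + k, q + k)) k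

theorem finrank_map_iSup (hm : L ∈ X.H (1, 1)) (κ : ℕ) (a b : ℤ) :
    finrank ℂ ((⨆ k : ℤ, X.H (a + k, b + k)).map (ml X (L ^ κ))) =
      ∑ k ∈ sm (bd n a b) ∪ ({0} ∪ sp (bd n a b)), rk X L κ (a + k) (b + k) := by
  rw [iSup_eq_F X a b (sm (bd n a b) ∪ ({0} ∪ sp (bd n a b))) ?_, finrank_map_F hm]
  intro k hk
  rw [Finset.mem_union, Finset.mem_union, Finset.mem_singleton, mem_sp, mem_sm] at hk
  unfold bd at hk
  omega

theorem sum_split (N : ℕ) (g : ℤ → ℕ) :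
    ∑ k ∈ sm N ∪ ({0} ∪ sp N), g k = ∑ k ∈ sp N, g (-k) + (g 0 + ∑ k ∈ sp N, g k) := by
  rw [Finset.sum_union, Finset.sum_union, Finset.sum_singleton]
  · congr 1
    rw [sum_sm, sum_sp]
  · rw [Finset.disjoint_left]
    intro k hk hk2
    rw [Finset.mem_singleton] at hk
    rw [mem_sp] at hk2
    omega
  · rw [Finset.disjoint_left]
    intro k hk hk2
    rw [mem_sm] at hk
    rw [Finset.mem_union, Finset.mem_singleton, mem_sp] at hk2
    omega

theorem hf_sum_left (κ : ℕ) (s : Finset ℤ) (g : ℤ → X.R) (y : X.R) :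
    hf X L κ (∑ k ∈ s, g k) y = ∑ k ∈ s, hf X L κ (g k) y := by
  induction s using Finset.cons_induction with
  | empty =>
    have := hf_smul_left (X := X) (w := L) (k := κ) 0 0 y
    simpa using this
  | cons a s ha ih => rw [Finset.sum_cons, Finset.sum_cons, hf_add_left, ih]

theorem hf_sum_right (κ : ℕ) (s : Finset ℤ) (g : ℤ → X.R) (y : X.R) :
    hf X L κ y (∑ k ∈ s, g k) = ∑ k ∈ s, hf X L κ y (g k) := by
  induction s using Finset.cons_induction with
  | empty =>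
    have := hf_smul_right (X := X) (w := L) (k := κ) 0 y 0
    simpa using this
  | cons a s ha ih => rw [Finset.sum_cons, Finset.sum_cons, hf_add_right, ih]

/-- The radical. -/
theorem rad (hm : L ∈ X.H (1, 1)) (hb : X.bar L = L) {a b : ℤ} {κ : ℕ} (hab : a + b + κ = n)
    {x : X.R} (hx : x ∈ ⨆ k : ℤ, X.H (a + k, b + k))
    (h : ∀ y ∈ ⨆ k : ℤ, X.H (a + k, b + k), bf X L κ x y = 0) : L ^ κ * x = 0 := by
  classical
  rw [Submodule.mem_iSup_iff_exists_finsupp] at hx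
  obtain ⟨f, hf1, hfx⟩ := hx
  rw [← hfx, Finsupp.sum, Finset.mul_sum]
  refine Finset.sum_eq_zero fun k0 hk0 => ?_
  have h1 : ∀ y ∈ X.H (a - k0, b - k0), (hf X L κ (f k0) y).re = 0 := by
    intro y hy
    have hyT : y ∈ ⨆ k : ℤ, X.H (a + k, b + k) :=
      Submodule.mem_iSup_of_mem (-k0) (mem_H hy (by ring) (by ring))
    have h2 := h y hyT
    unfold bf at h2
    rw [← hfx, Finsupp.sum, hf_sum_left, hf_sum_right, Finset.sum_eq_single k0,
      Finset.sum_eq_single k0] at h2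
    · rw [hf_conj (X := X) hm hb (hf1 k0) hy, Complex.conj_re] at h2
      linarith
    · intro k _ hk
      exact hf_zero hm hy (hf1 k) (by omega)
    · intro hk
      exact absurd hk0 hk
    · intro k _ hk
      exact hf_zero hm (hf1 k) hy (by omega)
    · intro hk
      exact absurd hk0 hk
  have h4 : ∀ y ∈ X.H (a - k0, b - k0), hf X L κ (f k0) y = 0 := by
    intro y hy
    have h5 := h1 (Complex.I • y) (Submodule.smul_mem _ _ hy)
    rw [hf_smul_right, Complex.conj_I] at h5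
    refine Complex.ext (h1 y hy) ?_
    simp only [Complex.mul_re, Complex.neg_re, Complex.I_re, Complex.neg_im, Complex.I_im] at h5
    simp only [Complex.zero_im]
    linarith
  refine X.pd (a + k0 + κ) (b + k0 + κ) _ (X.pow_mul_mem hm κ (hf1 k0)) fun u hu => ?_
  have hu' : u ∈ X.H (b - k0, a - k0) := mem_H hu (by omega) (by omega)
  have h6 := h4 (X.bar u) (X.bar_mem _ _ _ hu')
  rw [hf_hom hm (hf1 k0), X.bar_bar] at h6
  rw [mul_assoc]
  exact (mul_eq_zero.mp h6).resolve_left (zpow_ne_zero _ Complex.I_ne_zero)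

variable {Y : KRing n} {Φ : FM X Y} {L' : Y.R}

theorem finrank_map_Φ (hΦ : Intertwines Φ L L') (κ : ℕ) (A : Submodule ℂ X.R) :
    finrank ℂ ((A.map (Φ.φ : X.R →ₗ[ℂ] Y.R)).map (ml Y (L' ^ κ))) =
      finrank ℂ (A.map (ml X (L ^ κ))) := by
  have e : (A.map (Φ.φ : X.R →ₗ[ℂ] Y.R)).map (ml Y (L' ^ κ)) =
      (A.map (ml X (L ^ κ))).map (Φ.φ : X.R →ₗ[ℂ] Y.R) := by
    rw [← Submodule.map_comp, ← Submodule.map_comp]
    congr 1
    ext x
    exact (hΦ.pow κ x).symm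
  rw [e, LinearEquiv.finrank_map_eq]

theorem total (hX : L ∈ X.H (1, 1)) (hY : L' ∈ Y.H (1, 1)) (hΦ : Intertwines Φ L L') (κ : ℕ)
    (a b : ℤ) :
    ∑ k ∈ sm (bd n a b) ∪ ({0} ∪ sp (bd n a b)), rk X L κ (a + k) (b + k) =
      ∑ k ∈ sm (bd n a b) ∪ ({0} ∪ sp (bd n a b)), rk Y L' κ (a + k) (b + k) := by
  rw [← finrank_map_iSup hX, ← finrank_map_iSup hY, ← Φ.hodge a b, finrank_map_Φ hΦ]

/-- the sum of the ranks in the upper part -/
noncomputable def up (X : KRing n) (L : X.R) (κ : ℕ) (a b : ℤ) : ℕ :=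
  ∑ k ∈ sp (bd n a b), rk X L κ (a + k) (b + k)

theorem total_up (hL : RelHR X L) {κ : ℕ} {a b : ℤ} (hab : a + b + κ = n) :
    finrank ℂ ((⨆ k : ℤ, X.H (a + k, b + k)).map (ml X (L ^ κ))) =
      2 * up X L κ a b + rk X L κ a b := by
  rw [finrank_map_iSup hL.mem, sum_split (bd n a b) (fun k => rk X L κ (a + k) (b + k))]
  have h1 : ∑ k ∈ sp (bd n a b), rk X L κ (a + -k) (b + -k) = up X L κ a b :=
    Finset.sum_congr rfl fun k _ => rk_dual hL.mem hL.real (by omega) (by omega)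
  rw [h1, add_zero, add_zero]
  unfold up
  ring

theorem comp_true (hX : RelHR X L) (hY : RelHR Y L') (hc : Intertwines Φ X.c Y.c)
    (hΦ : Intertwines Φ L L') {a b : ℤ} {κ : ℕ} (hab : a + b + κ = n) {f : ℕ} (hf : a < f) :
    up X L κ a b + pm X L true f κ a b ≤ up Y L' κ a b + pm Y L' true f κ a b := by
  obtain ⟨W₁, -, c1, -, pos, -, d1, -⟩ := exists_W hX f a b κ hab hf
  obtain ⟨-, W₂, -, c2, -, neg, -, d2⟩ := exists_W hY f a b κ hab hf
  have h1 := semi_rank (isHerm (X := Y) (w := L') (k := κ) (sg a b)) (ml Y (L' ^ κ))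
    (⨆ k : ℤ, Y.H (a + k, b + k))
    ((X.F a b (sp (bd n a b)) ⊔ W₁).map (Φ.φ : X.R →ₗ[ℂ] Y.R)) (Y.F a b (sp (bd n a b)) ⊔ W₂)
    (by
      rw [← Φ.hodge a b]
      exact Submodule.map_mono (sup_le (F_le a b _) (c1.trans (H_le a b))))
    (sup_le (F_le a b _) (c2.trans (H_le a b)))
    (by
      rintro _ ⟨x, hx, rfl⟩
      obtain ⟨f, hf1, m, hm, rfl⟩ := Submodule.mem_sup.1 hx
      show 0 ≤ sg a b * bf Y L' κ (Φ.φ (f + m)) (Φ.φ (f + m))
      rw [bf_iso hc hΦ, (bf_sup hX.mem hab _ hf1 (c1 hm)).1]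
      exact pos m hm)
    (by
      intro x hx
      obtain ⟨f, hf1, m, hm, rfl⟩ := Submodule.mem_sup.1 hx
      rw [(bf_sup hY.mem hab _ hf1 (c2 hm)).1]
      exact neg m hm)
    (by
      intro x hx y
      have hx' : L' ^ κ * x = 0 := hx
      unfold bf
      rw [hf_ker_left hY.mem hx', hf_ker_right hY.real hx']
      simp)
    (by
      intro x hx hxy
      exact rad hY.mem hY.real hab hx fun y hy =>
        (mul_eq_zero.mp (hxy y hy)).resolve_left (sg_ne a b))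
  rw [finrank_map_Φ hΦ, rk_sup hX.mem _ _ c1, rk_sup hY.mem _ _ c2, total_up hY hab] at h1
  have h2 := pm_sum hY f a b κ hab hf
  have h1' : up X L κ a b + finrank ℂ (W₁.map (ml X (L ^ κ))) +
      (up Y L' κ a b + finrank ℂ (W₂.map (ml Y (L' ^ κ)))) ≤
        2 * up Y L' κ a b + rk Y L' κ a b := h1
  omega

theorem comp_false (hX : RelHR X L) (hY : RelHR Y L') (hc : Intertwines Φ X.c Y.c)
    (hΦ : Intertwines Φ L L') {a b : ℤ} {κ : ℕ} (hab : a + b + κ = n) {f : ℕ} (hf : a < f) :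
    up X L κ a b + pm X L false f κ a b ≤ up Y L' κ a b + pm Y L' false f κ a b := by
  obtain ⟨-, W₂, -, c2, -, neg, -, d2⟩ := exists_W hX f a b κ hab hf
  obtain ⟨W₁, -, c1, -, pos, -, d1, -⟩ := exists_W hY f a b κ hab hf
  have h1 := semi_rank (isHerm (X := Y) (w := L') (k := κ) (sg a b)) (ml Y (L' ^ κ))
    (⨆ k : ℤ, Y.H (a + k, b + k)) (Y.F a b (sp (bd n a b)) ⊔ W₁)
    ((X.F a b (sp (bd n a b)) ⊔ W₂).map (Φ.φ : X.R →ₗ[ℂ] Y.R))
    (sup_le (F_le a b _) (c1.trans (H_le a b)))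
    (by
      rw [← Φ.hodge a b]
      exact Submodule.map_mono (sup_le (F_le a b _) (c2.trans (H_le a b))))
    (by
      intro x hx
      obtain ⟨f, hf1, m, hm, rfl⟩ := Submodule.mem_sup.1 hx
      rw [(bf_sup hY.mem hab _ hf1 (c1 hm)).1]
      exact pos m hm)
    (by
      rintro _ ⟨x, hx, rfl⟩
      obtain ⟨f, hf1, m, hm, rfl⟩ := Submodule.mem_sup.1 hx
      show sg a b * bf Y L' κ (Φ.φ (f + m)) (Φ.φ (f + m)) ≤ 0
      rw [bf_iso hc hΦ, (bf_sup hX.mem hab _ hf1 (c2 hm)).1]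
      exact neg m hm)
    (by
      intro x hx y
      have hx' : L' ^ κ * x = 0 := hx
      unfold bf
      rw [hf_ker_left hY.mem hx', hf_ker_right hY.real hx']
      simp)
    (by
      intro x hx hxy
      exact rad hY.mem hY.real hab hx fun y hy =>
        (mul_eq_zero.mp (hxy y hy)).resolve_left (sg_ne a b))
  rw [finrank_map_Φ hΦ, rk_sup hX.mem _ _ c2, rk_sup hY.mem _ _ c1, total_up hY hab] at h1
  have h2 := pm_sum hY f a b κ hab hf
  have h1' : up Y L' κ a b + finrank ℂ (W₁.map (ml Y (L' ^ κ))) +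
      (up X L κ a b + finrank ℂ (W₂.map (ml X (L ^ κ)))) ≤
        2 * up Y L' κ a b + rk Y L' κ a b := h1
  omega

/-- The difference is an invariant. -/
theorem comp (hX : RelHR X L) (hY : RelHR Y L') (hc : Intertwines Φ X.c Y.c)
    (hΦ : Intertwines Φ L L') {a b : ℤ} {κ : ℕ} (hab : a + b + κ = n) {f : ℕ} (hf : a < f) :
    pm X L true f κ a b - pm X L false f κ a b =
      pm Y L' true f κ a b - pm Y L' false f κ a b := by
  have h1 := comp_true hX hY hc hΦ hab hf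
  have h2 := comp_true (Φ := symm Φ) hY hX hc.symm hΦ.symm hab hf
  have h3 := comp_false hX hY hc hΦ hab hf
  have h4 := comp_false (Φ := symm Φ) hY hX hc.symm hΦ.symm hab hf
  omega

end Pool.Agent.U233.DT
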