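import Pool.Agent.R929.DH.Defs

/-!
# The relative Hodge-Riemann bilinear relations: definitions

`L` is the pull-back of an ample class under a morphism `f : X → B`, `ω` is an ample class of `X`.
De Cataldo and Migliorini: the nilpotent operator `L` on `H^*(X)` defines the perverse filtration, and
`KK / TT` in type `(p, q)` is the part of type `(p, q)` of the primitive cohomology
`P^{-κ}(B, pH^u)` of the perverse cohomology sheaf `pH^u = pH^u (Rf_* ℂ [n])`, where
`u = p + q + κ - n`.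
-/

namespace Pool.Agent.U233.DT

open Pool.Agent.W539.DI

variable {n : ℕ}

/-- The classes of type `(p, q)` killed by `L ^ (κ + 1)`. -/
def KK (X : KRing n) (L : X.R) (κ : ℕ) (p q : ℤ) : Submodule ℂ X.R :=
  X.H (p, q) ⊓ LinearMap.ker (LinearMap.mulLeft ℂ (L ^ (κ + 1)))

/-- The classes `y + L z` of type `(p, q)` with `L ^ κ y = 0` and `L ^ (κ + 2) z = 0`. -/
def TT (X : KRing n) (L : X.R) (κ : ℕ) (p q : ℤ) : Submodule ℂ X.R :=
  X.H (p, q) ⊓ LinearMap.ker (LinearMap.mulLeft ℂ (L ^ κ)) ⊔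
    (X.H (p - 1, q - 1) ⊓ LinearMap.ker (LinearMap.mulLeft ℂ (L ^ (κ + 2)))).map
      (LinearMap.mulLeft ℂ L)

/-- The dimension of `KK / TT`: the Hodge number `(p, q)` of the primitive cohomology
`P^{-κ}(B, pH^u)` with `u = p + q + κ - n`. -/
noncomputable def prim (X : KRing n) (L : X.R) (κ : ℕ) (p q : ℤ) : ℕ :=
  Module.finrank ℂ (KK X L κ p q) - Module.finrank ℂ (TT X L κ p q)

/-- The relative Hodge-Riemann bilinear relations, for the perverse cohomology sheaves `pH^{-2 i}`: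
if `x` has type `(p, q)` with `p + q + 2 i + κ = n`, is killed by `L ^ (κ + 1)`, is primitive for
`ω` (`ω ^ (2 i + 1) x` is zero modulo `TT`) and is not in `TT`, then
`i^{p-q} (-1)^{(p+q)(p+q-1)/2} ∫ L^κ ω^{2i} x x̄ > 0`. -/
structure RelHR (X : KRing n) (L : X.R) : Prop where
  mem : L ∈ X.H (1, 1)
  real : X.bar L = L
  rel : ∀ (p q : ℤ) (i κ : ℕ), p + q + 2 * i + κ = n → ∀ x ∈ KK X L κ p q, x ∉ TT X L κ p q →
    X.ω ^ (2 * i + 1) * x ∈ TT X L κ (p + (2 * i + 1)) (q + (2 * i + 1)) →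
    ∃ r : ℝ, 0 < r ∧ Complex.I ^ (p - q) * (-1 : ℂ) ^ ((p + q) * (p + q - 1) / 2) *
      X.tr (L ^ κ * (X.ω ^ (2 * i) * (x * X.bar x))) = (r : ℂ)

/-- The defect of semismallness is at most `d`, in terms of cohomology: `L ^ κ` is injective on the
classes of degree `n - d - κ`. -/
def Defect (X : KRing n) (L : X.R) (d : ℕ) : Prop :=
  ∀ (p q : ℤ) (κ : ℕ), p + q + κ + d = n → ∀ x ∈ X.H (p, q), L ^ κ * x = 0 → x = 0

end Pool.Agent.U233.DT
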