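import Pool.Agent.R929.DH.Low

/-!
# Linear algebra
-/

open Module

namespace Pool.Agent.U233.DT

open Pool.Agent.R929.DH

variable {V W : Type*} [AddCommGroup V] [Module ℂ V] [FiniteDimensional ℂ V]
  [AddCommGroup W] [Module ℂ W]

theorem rank_nullity (f : V →ₗ[ℂ] W) (A : Submodule ℂ V) :
    finrank ℂ (A.map f) + finrank ℂ (A ⊓ LinearMap.ker f : Submodule ℂ V) = finrank ℂ A := by
  have h1 := LinearMap.finrank_range_add_finrank_ker (f.domRestrict A)
  rw [LinearMap.range_domRestrict] at h1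
  have h2 : finrank ℂ (LinearMap.ker (f.domRestrict A)) =
      finrank ℂ (A ⊓ LinearMap.ker f : Submodule ℂ V) := by
    have e : LinearMap.ker (f.domRestrict A) =
        Submodule.comap A.subtype (A ⊓ LinearMap.ker f) := by
      ext x
      simp
    rw [e, finrank_comap_le inf_le_left]
  omega

variable [FiniteDimensional ℂ W]

theorem G1 (f : V →ₗ[ℂ] V) (A B C : Submodule ℂ V) (hC : C ≤ B) (hf : A.map f ≤ B) :
    finrank ℂ A + finrank ℂ C ≤ finrank ℂ (A ⊓ C.comap f : Submodule ℂ V) + finrank ℂ B := by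
  have h1 := rank_nullity (C.mkQ ∘ₗ f) A
  have h2 := rank_nullity C.mkQ B
  rw [LinearMap.ker_comp, Submodule.ker_mkQ] at h1
  rw [Submodule.ker_mkQ, inf_eq_right.2 hC] at h2
  rw [Submodule.map_comp] at h1
  have h3 := Submodule.finrank_mono (Submodule.map_mono (f := C.mkQ) hf)
  omega

theorem G2 (f : V →ₗ[ℂ] V) (A C D : Submodule ℂ V) (h : ∀ x ∈ A, f x ∈ C → x ∈ D) :
    finrank ℂ A + finrank ℂ C ≤ finrank ℂ (A.map f ⊔ C : Submodule ℂ V) + finrank ℂ D := by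
  have h1 := rank_nullity (C.mkQ ∘ₗ f) A
  have h2 := rank_nullity C.mkQ (A.map f ⊔ C)
  rw [LinearMap.ker_comp, Submodule.ker_mkQ] at h1
  rw [Submodule.ker_mkQ, inf_eq_right.2 le_sup_right] at h2
  rw [Submodule.map_comp] at h1
  have h3 := Submodule.finrank_mono (Submodule.map_mono (f := C.mkQ)
    (le_sup_left : A.map f ≤ A.map f ⊔ C))
  have h4 : finrank ℂ (A ⊓ C.comap f : Submodule ℂ V) ≤ finrank ℂ D :=
    Submodule.finrank_mono (fun x hx => h x hx.1 hx.2)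
  omega

theorem semi_rank {β : V → V → ℝ} (h : IsHerm β) (f : V →ₗ[ℂ] V) (T W₁ W₂ : Submodule ℂ V)
    (hW₁ : W₁ ≤ T) (hW₂ : W₂ ≤ T) (h₁ : ∀ x ∈ W₁, 0 ≤ β x x) (h₂ : ∀ x ∈ W₂, β x x ≤ 0)
    (hf : ∀ x, f x = 0 → ∀ y, β x y = 0) (hr : ∀ x ∈ T, (∀ y ∈ T, β x y = 0) → f x = 0) :
    finrank ℂ (W₁.map f) + finrank ℂ (W₂.map f) ≤ finrank ℂ (T.map f) := by
  set Z : Submodule ℂ V := T ⊓ LinearMap.ker f with hZ
  have hq : ∀ w z, z ∈ Z → β (w + z) (w + z) = β w w := by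
    intro w z hz
    have hz2 : f z = 0 := hz.2
    rw [h.add, h.add_right, hf z hz2 (w + z), h.symm w z, hf z hz2 w]
    ring
  have h1 := semi_sub h T (W₁ ⊔ Z) (W₂ ⊔ Z) Z (sup_le hW₁ inf_le_left) (sup_le hW₂ inf_le_left)
    (by
      intro x hx
      obtain ⟨w, hw, z, hz, rfl⟩ := Submodule.mem_sup.1 hx
      rw [hq w z hz]
      exact h₁ w hw)
    (by
      intro x hx
      obtain ⟨w, hw, z, hz, rfl⟩ := Submodule.mem_sup.1 hx
      rw [hq w z hz]
      exact h₂ w hw)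
    (fun x hx hxy => ⟨(sup_le hW₂ inf_le_left : W₂ ⊔ Z ≤ T) hx,
      hr x ((sup_le hW₂ inf_le_left : W₂ ⊔ Z ≤ T) hx) hxy⟩)
  have key : ∀ W₀ : Submodule ℂ V, W₀ ≤ T →
      finrank ℂ (W₀.map f) + finrank ℂ Z ≤ finrank ℂ (W₀ ⊔ Z : Submodule ℂ V) := by
    intro W₀ _
    have h2 := rank_nullity f (W₀ ⊔ Z)
    have h3 := Submodule.finrank_mono (Submodule.map_mono (f := f) (le_sup_left : W₀ ≤ W₀ ⊔ Z))
    have h4 : finrank ℂ Z ≤ finrank ℂ ((W₀ ⊔ Z) ⊓ LinearMap.ker f : Submodule ℂ V) :=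
      Submodule.finrank_mono (le_inf le_sup_right inf_le_right)
    omega
  have h2 := key W₁ hW₁
  have h3 := key W₂ hW₂
  have h4 := rank_nullity f T
  rw [← hZ] at h4
  omega

/-- The rank of a bilinear pairing can be computed on both sides. -/
theorem pair_rank (B : V →ₗ[ℂ] Dual ℂ W) :
    finrank ℂ (LinearMap.range B) = finrank ℂ (LinearMap.range B.flip) := by
  have e : B.flip = B.dualMap ∘ₗ Dual.eval ℂ W := by
    ext y x
    rfl
  rw [e, LinearMap.range_comp_of_range_eq_top _ (Module.erange_coe ..),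
    LinearMap.finrank_range_dualMap_eq_finrank_range]

end Pool.Agent.U233.DT
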