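import Pool.Agent.U233.DT.Main

/-!
# Invariance of the sums and of the alternating sums
-/

open scoped ComplexConjugate
open Module

namespace Pool.Agent.U233.DT

open Pool.Agent.W539.DI Pool.Agent.R929.DH

section elementary

theorem sum_shift (n : ℕ) (G : ℤ → ℤ) (hG : ∀ m, m < 0 ∨ (n : ℤ) < m → G m = 0) (a : ℤ) (N : ℕ)
    (hN : n + a.natAbs ≤ N) :
    ∑ m ∈ Finset.range (n + 1), G (m : ℤ) = ∑ k ∈ Finset.Icc (-(N : ℤ)) N, G (a + k) := by
  have h1 : ∑ m ∈ Finset.range (n + 1), G (m : ℤ) = ∑ m ∈ Finset.Icc (0 : ℤ) n, G m := by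
    refine Finset.sum_nbij' (fun m : ℕ => (m : ℤ)) (fun m : ℤ => m.toNat) ?_ ?_ ?_ ?_ ?_
    · intro m hm
      rw [Finset.mem_range] at hm
      rw [Finset.mem_Icc]
      omega
    · intro m hm
      rw [Finset.mem_Icc] at hm
      rw [Finset.mem_range]
      omega
    · intro m _
      simp
    · intro m hm
      rw [Finset.mem_Icc] at hm
      exact Int.toNat_of_nonneg hm.1
    · intro m _
      rfl
  have h2 : ∑ k ∈ Finset.Icc (-(N : ℤ)) N, G (a + k) = ∑ m ∈ Finset.Icc (a - N) (a + N), G m := by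
    refine Finset.sum_nbij' (fun k => a + k) (fun m => m - a) ?_ ?_ ?_ ?_ ?_
    · intro m hm
      rw [Finset.mem_Icc] at hm ⊢
      omega
    · intro m hm
      rw [Finset.mem_Icc] at hm ⊢
      omega
    · intro m _
      ring
    · intro m _
      ring
    · intro m _
      rfl
  rw [h1, h2]
  refine Finset.sum_subset (fun m hm => ?_) (fun m _ hm => hG m ?_)
  · rw [Finset.mem_Icc] at hm ⊢
    omega
  · rw [Finset.mem_Icc] at hm
    omega

theorem sum_symm (F : ℤ → ℤ) (N : ℕ) : ∑ k ∈ Finset.Icc (-(N : ℤ)) N, F k =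
    F 0 + ∑ j ∈ Finset.range N, (F ((j : ℤ) + 1) + F (-((j : ℤ) + 1))) := by
  induction N with
  | zero => simp
  | succ N ih =>
    have e : Finset.Icc (-((N + 1 : ℕ) : ℤ)) ((N + 1 : ℕ) : ℤ) =
        insert ((N : ℤ) + 1) (insert (-((N : ℤ) + 1)) (Finset.Icc (-(N : ℤ)) N)) := by
      ext m
      simp only [Finset.mem_Icc, Finset.mem_insert]
      push_cast
      omega
    rw [e, Finset.sum_insert, Finset.sum_insert, ih, Finset.sum_range_succ]
    · ring
    · rw [Finset.mem_Icc]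
      omega
    · rw [Finset.mem_insert, Finset.mem_Icc]
      omega

/-- sign -/
def sn (m : ℤ) : ℤ := if Even m then 1 else -1

theorem sn_succ (m : ℤ) : sn (m + 1) = -sn m := by
  unfold sn
  by_cases h : Even m
  · rw [if_pos h, if_neg (by rw [Int.even_add_one]; exact fun h' => h' h)]
  · rw [if_neg h, if_pos (Int.even_add_one.2 h)]
    ring

theorem sn_neg (m : ℤ) : sn (-m) = sn m := by
  unfold sn
  simp

theorem sn_nat (m : ℕ) : (-1 : ℤ) ^ m = sn m := by
  induction m with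
  | zero => simp [sn]
  | succ m ih =>
    push_cast
    rw [pow_succ, ih, sn_succ]
    ring

theorem sn_add (a : ℤ) (j : ℕ) : sn (a + j) = sn a * sn j := by
  induction j with
  | zero => simp [sn]
  | succ j ih =>
    push_cast
    rw [← add_assoc, sn_succ, sn_succ, ih]
    ring

theorem sn_sub (a : ℤ) (j : ℕ) : sn (a - j) = sn a * sn j := by
  have h1 := sn_add (-a) j
  rw [← sn_neg, show -(a - (j : ℤ)) = -a + j by ring, h1, sn_neg]

end elementary

variable {n : ℕ} {X Y : KRing n} {L : X.R} {L' : Y.R} {Φ : FM X Y}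

theorem rk_top (hm : L ∈ X.H (1, 1)) {κ : ℕ} {p : ℤ} (h : (n : ℤ) < p + κ) (q : ℤ) :
    rk X L κ p q = 0 := by
  unfold rk
  have e : (X.H (p, q)).map (ml X (L ^ κ)) = ⊥ := by
    rw [eq_bot_iff]
    rintro _ ⟨x, hx, rfl⟩
    have h1 := X.pow_mul_mem hm κ hx
    rw [X.van_top (Or.inl h)] at h1
    exact h1
  rw [e, finrank_bot]

theorem bt_out (hm : L ∈ X.H (1, 1)) (κ : ℕ) {p : ℤ} (q : ℤ) (h : p < 0 ∨ (n : ℤ) < p) :
    bt X L κ p q = 0 := by
  unfold bt
  rcases h with h | h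
  · rw [rk_neg _ _ h, rk_neg _ _ h, rk_neg _ _ (by omega), rk_neg _ _ (by omega)]
    simp
  · rw [rk_top hm (by omega), rk_top hm (by push_cast; omega), rk_top hm (by push_cast; omega),
      rk_top hm (by push_cast; omega)]
    simp

/-- the sums of the ranks -/
theorem total_range (hX : L ∈ X.H (1, 1)) (hY : L' ∈ Y.H (1, 1)) (hΦ : Intertwines Φ L L')
    (κ : ℕ) (i : ℤ) :
    ∑ m ∈ Finset.range (n + 1), (rk X L κ m (m - i) : ℤ) =
      ∑ m ∈ Finset.range (n + 1), (rk Y L' κ m (m - i) : ℤ) := by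
  have key : ∀ (Z : KRing n) (M : Z.R), M ∈ Z.H (1, 1) →
      ∑ m ∈ Finset.range (n + 1), (rk Z M κ m (m - i) : ℤ) =
        ((∑ k ∈ sm (bd n 0 (-i)) ∪ ({0} ∪ sp (bd n 0 (-i))), rk Z M κ (0 + k) (-i + k) : ℕ) : ℤ)
      := by
    intro Z M hM
    rw [sum_shift n (fun m => (rk Z M κ m (m - i) : ℤ)) ?_ 0 (bd n 0 (-i))
      (by unfold bd; omega)]
    · have e : sm (bd n 0 (-i)) ∪ ({0} ∪ sp (bd n 0 (-i))) =
          Finset.Icc (-(bd n 0 (-i) : ℤ)) (bd n 0 (-i)) := by
        ext k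
        rw [Finset.mem_union, Finset.mem_union, Finset.mem_singleton, mem_sp, mem_sm,
          Finset.mem_Icc]
        omega
      rw [e]
      push_cast
      refine Finset.sum_congr rfl fun k _ => ?_
      rw [show -i + k = 0 + k - i by ring]
    · intro m hm
      rcases hm with hm | hm
      · rw [rk_neg _ _ hm]
        rfl
      · rw [rk_top hM (by omega)]
        rfl
  rw [key X L hX, key Y L' hY, total hX hY hΦ κ 0 (-i)]

theorem sum_pred (hm : L ∈ X.H (1, 1)) {κ : ℕ} (hκ : 1 ≤ κ) (i : ℤ) :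
    ∑ m ∈ Finset.range (n + 1), (rk X L κ ((m : ℤ) - 1) ((m : ℤ) - i - 1) : ℤ) =
      ∑ m ∈ Finset.range (n + 1), (rk X L κ m (m - i) : ℤ) := by
  rw [Finset.sum_range_succ', Finset.sum_range_succ, rk_neg _ _ (by simp),
    rk_top hm (by push_cast; omega)]
  congr 1
  refine Finset.sum_congr rfl fun m _ => ?_
  congr 2 <;> push_cast <;> ring

/-- **The sums are invariants.** -/
theorem sums (hX : RelHR X L) (hY : RelHR Y L') (hΦ : Intertwines Φ L L') (κ : ℕ) (i : ℤ) :
    ∑ m ∈ Finset.range (n + 1), prim X L κ m (m - i) =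
      ∑ m ∈ Finset.range (n + 1), prim Y L' κ m (m - i) := by
  have key : ∀ (Z : KRing n) (M : Z.R), RelHR Z M →
      ((∑ m ∈ Finset.range (n + 1), prim Z M κ m (m - i) : ℕ) : ℤ) =
      ∑ m ∈ Finset.range (n + 1), (rk Z M κ m (m - i) : ℤ) -
        ∑ m ∈ Finset.range (n + 1), (rk Z M (κ + 1) m (m - i) : ℤ) -
        ∑ m ∈ Finset.range (n + 1), (rk Z M (κ + 1) m (m - i) : ℤ) +
        ∑ m ∈ Finset.range (n + 1), (rk Z M (κ + 2) m (m - i) : ℤ) := by
    intro Z M hZ
    conv_rhs =>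
      rw [← sum_pred hZ.mem (κ := κ + 2) (by omega) i]
      arg 1
      arg 2
      rw [← sum_pred hZ.mem (κ := κ + 1) (by omega) i]
    rw [← Finset.sum_sub_distrib, ← Finset.sum_sub_distrib, ← Finset.sum_add_distrib]
    push_cast
    refine Finset.sum_congr rfl fun m _ => ?_
    rw [← bt_prim hZ.mem]
    rfl
  have h1 := key X L hX
  have h2 := key Y L' hY
  rw [total_range hX.mem hY.mem hΦ, total_range hX.mem hY.mem hΦ, total_range hX.mem hY.mem hΦ,
    ← h2] at h1
  exact_mod_cast h1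

theorem cc_formula (κ : ℕ) : ∀ (F : ℕ) (p q : ℤ),
    cc X L κ true F p q - cc X L κ false F p q =
      ∑ j ∈ Finset.range F, sn j * (bt X L κ (p - j) (q - j) - bt X L κ (p - j - 1) (q - j - 1)) := by
  intro F
  induction F with
  | zero => intro p q; simp [cc]
  | succ F ih =>
    intro p q
    have h1 := ih (p - 1) (q - 1)
    rw [Finset.sum_range_succ']
    have e : ∑ j ∈ Finset.range F, sn ((j + 1 : ℕ) : ℤ) *
        (bt X L κ (p - (j + 1 : ℕ)) (q - (j + 1 : ℕ)) -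
          bt X L κ (p - (j + 1 : ℕ) - 1) (q - (j + 1 : ℕ) - 1)) =
        -∑ j ∈ Finset.range F, sn j * (bt X L κ (p - 1 - j) (q - 1 - j) -
          bt X L κ (p - 1 - j - 1) (q - 1 - j - 1)) := by
      rw [← Finset.sum_neg_distrib]
      refine Finset.sum_congr rfl fun j _ => ?_
      push_cast
      rw [sn_succ, show p - ((j : ℤ) + 1) = p - 1 - j by ring,
        show q - ((j : ℤ) + 1) = q - 1 - j by ring]
      ring
    rw [e, ← h1]
    show bt X L κ p q - bt X L κ (p - 1) (q - 1) + cc X L κ false F (p - 1) (q - 1) -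
      cc X L κ true F (p - 1) (q - 1) = _
    simp [sn]
    ring

/-- **The alternating sums are invariants.** -/
theorem alt (hX : RelHR X L) (hY : RelHR Y L') (hc : Intertwines Φ X.c Y.c)
    (hΦ : Intertwines Φ L L') (κ : ℕ) (i : ℤ) (hev : Even ((n : ℤ) - κ + i)) :
    ∑ m ∈ Finset.range (n + 1), (-1 : ℤ) ^ m * prim X L κ m (m - i) =
      ∑ m ∈ Finset.range (n + 1), (-1 : ℤ) ^ m * prim Y L' κ m (m - i) := by
  obtain ⟨a, ha⟩ := hev
  obtain ⟨b, hb⟩ : ∃ b, b = a - i := ⟨_, rfl⟩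
  have hab : a + b + κ = n := by omega
  obtain ⟨N, hN⟩ : ∃ N, N = n + a.natAbs := ⟨_, rfl⟩
  have key : ∀ (Z : KRing n) (M : Z.R), RelHR Z M →
      ∑ m ∈ Finset.range (n + 1), (-1 : ℤ) ^ m * prim Z M κ m (m - i) =
        sn a * (cc Z M κ true (N + 1) a b - cc Z M κ false (N + 1) a b) := by
    intro Z M hZ
    have e1 : ∑ m ∈ Finset.range (n + 1), (-1 : ℤ) ^ m * (prim Z M κ m (m - i) : ℤ) =
        ∑ m ∈ Finset.range (n + 1), (fun m : ℤ => sn m * bt Z M κ m (m - i)) (m : ℤ) := by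
      refine Finset.sum_congr rfl fun m _ => ?_
      simp only
      rw [sn_nat, bt_prim hZ.mem]
    rw [e1, sum_shift n (fun m : ℤ => sn m * bt Z M κ m (m - i))
      (fun m hm => by rw [bt_out hZ.mem κ _ hm, mul_zero]) a N (by omega), sum_symm,
      cc_formula]
    have e2 : ∀ j : ℕ, bt Z M κ (a + ((j : ℤ) + 1)) (a + ((j : ℤ) + 1) - i) =
        bt Z M κ (a - ((j : ℤ) + 1)) (b - ((j : ℤ) + 1)) := fun j =>
      bt_dual hZ.mem hZ.real (by omega) (by omega)
    have e3 : ∀ j ∈ Finset.range N,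
        (sn (a + ((j : ℤ) + 1)) * bt Z M κ (a + ((j : ℤ) + 1)) (a + ((j : ℤ) + 1) - i) +
          sn (a + -((j : ℤ) + 1)) * bt Z M κ (a + -((j : ℤ) + 1)) (a + -((j : ℤ) + 1) - i)) =
        sn a * (2 * (sn ((j : ℤ) + 1) * bt Z M κ (a - ((j : ℤ) + 1)) (b - ((j : ℤ) + 1)))) := by
      intro j _
      have s1 := sn_add a (j + 1)
      have s2 := sn_sub a (j + 1)
      push_cast at s1 s2
      rw [e2, s1, ← sub_eq_add_neg, s2,
        show a - ((j : ℤ) + 1) - i = b - ((j : ℤ) + 1) by rw [hb]; ring]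
      ring
    rw [Finset.sum_congr rfl e3, ← Finset.mul_sum, ← Finset.mul_sum]
    have e4 : ∑ j ∈ Finset.range (N + 1), sn j *
        (bt Z M κ (a - j) (b - j) - bt Z M κ (a - j - 1) (b - j - 1)) =
        ∑ j ∈ Finset.range (N + 1), sn j * bt Z M κ (a - j) (b - j) +
        ∑ j ∈ Finset.range (N + 1), sn ((j : ℤ) + 1) *
          bt Z M κ (a - ((j : ℤ) + 1)) (b - ((j : ℤ) + 1)) := by
      rw [← Finset.sum_add_distrib]
      refine Finset.sum_congr rfl fun j _ => ?_
      rw [sn_succ, show a - ((j : ℤ) + 1) = a - j - 1 by ring,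
        show b - ((j : ℤ) + 1) = b - j - 1 by ring]
      ring
    rw [e4, Finset.sum_range_succ', Finset.sum_range_succ (n := N),
      bt_out hZ.mem κ (p := a - ((N : ℤ) + 1)) _ (Or.inl (by omega))]
    push_cast
    simp only [sub_zero, add_zero, mul_zero]
    rw [show sn 0 = 1 by simp [sn], ← hb]
    ring
  rw [key X L hX, key Y L' hY]
  congr 1
  have s1 := comp hX hY hc hΦ hab (f := N + 1) (by push_cast; omega)
  have s2 := comp hX hY hc hΦ (a := a - 1) (b := b - 1) (κ := κ + 2) (f := N)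
    (by push_cast; omega) (by omega)
  have eT : ∀ (Z : KRing n) (M : Z.R), pm Z M true (N + 1) κ a b =
      pm Z M false N (κ + 2) (a - 1) (b - 1) + cc Z M κ true (N + 1) a b +
        rk Z M (κ + 1) (a - 1) (b - 1) - rk Z M (κ + 2) (a - 1) (b - 1) := fun Z M => rfl
  have eF : ∀ (Z : KRing n) (M : Z.R), pm Z M false (N + 1) κ a b =
      pm Z M true N (κ + 2) (a - 1) (b - 1) + cc Z M κ false (N + 1) a b +
        rk Z M (κ + 1) (a - 1) (b - 1) - rk Z M (κ + 2) (a - 1) (b - 1) := fun Z M => rfl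
  rw [eT, eT, eF, eF] at s1
  omega

end Pool.Agent.U233.DT
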